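import Pool.Agent.H5.FL.Stm4
import Pool.Agent.H78.FL.CLK
import Pool.Agent.H99.FL.PM1

set_option autoImplicit false

open MeasureTheory ProbabilityTheory Set Filter Topology
open scoped NNReal ENNReal

universe u

namespace H9.FL

open H5.FL H99.FL

theorem clock_cont {N : ℕ} {Ω : Type u} [mΩ : MeasurableSpace Ω] (J : ℝ≥0 → Ω → Fin N)
    (hJ : Measurable fun p : ℝ≥0 × Ω => J p.1 p.2) (ω : Ω) :
    Continuous fun t => clock J t ω := by
  refine continuous_pi (fun j => ?_)
  have hJω : Measurable fun s : ℝ => J s.toNNReal ω :=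
    hJ.comp (measurable_real_toNNReal.prodMk measurable_const)
  have hF : Measurable fun s : ℝ => if J s.toNNReal ω = j then (1 : ℝ) else 0 :=
    Measurable.ite (hJω (measurableSet_singleton j)) measurable_const measurable_const
  have hint : ∀ a b : ℝ, IntervalIntegrable
      (fun s : ℝ => if J s.toNNReal ω = j then (1 : ℝ) else 0) volume a b := by
    intro a b
    refine (intervalIntegrable_const (c := (1 : ℝ))).mono_fun hF.aestronglyMeasurable ?_
    refine Filter.Eventually.of_forall (fun s => ?_)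
    simp only
    split_ifs <;> simp
  exact (intervalIntegral.continuous_primitive hint 0).comp NNReal.continuous_coe

/-- measurability and continuity facts of a Brownian policy -/
theorem bpol_facts {N : ℕ} {μ : ℝ} {Ω : Type u} [mΩ : MeasurableSpace Ω]
    {P : Measure Ω} (π : BPolicy N μ Ω P) :
    (∀ ω, Continuous (fun r => (π.X r ω, clock π.J r ω))) ∧
    (∀ r, Measurable[π.full r] (fun ω => (π.X r ω, clock π.J r ω))) ∧
    Measurable (fun p : ℝ≥0 × Ω => (π.X p.1 p.2, clock π.J p.1 p.2)) ∧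
    Measurable (fun p : ℝ≥0 × Ω => π.J p.1 p.2) ∧ Measurable π.jstar := by
  have hJ := H78.FL.J_joint π.obs π.J π.J_prog
  have hcc := clock_cont π.J hJ
  have hX : ∀ ω, Continuous (fun r => π.X r ω) := by
    intro ω
    refine continuous_pi (fun j => ?_)
    have h1 : Continuous (fun r => π.M r ω j) := (continuous_apply j).comp (π.M_cont ω)
    have h2 : Continuous (fun r => clock π.J r ω j) := (continuous_apply j).comp (hcc ω)
    have h3 : (fun r => π.X r ω j) = fun r => π.M r ω j +
        μ * (if π.jstar ω = j then clock π.J r ω j else 0) := by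
      funext r
      exact π.X_eq r ω j
    rw [h3]
    by_cases hj : π.jstar ω = j
    · simp only [if_pos hj]
      exact h1.add (continuous_const.mul h2)
    · simp only [if_neg hj]
      exact h1.add continuous_const
  have hc : ∀ r, Measurable[π.obs r] (clock π.J r) := fun r =>
    H78.FL.clock_measurable (π.obs r) π.J r (π.J_prog r)
  have hm : ∀ r, Measurable[π.full r] (fun ω => (π.X r ω, clock π.J r ω)) := fun r =>
    ((π.X_adapted r).prodMk (hc r)).mono (π.obs_le r) le_rfl
  have hcont : ∀ ω, Continuous (fun r => (π.X r ω, clock π.J r ω)) := fun ω =>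
    (hX ω).prodMk (hcc ω)
  refine ⟨hcont, hm, ?_, hJ, (π.jstar_full).mono (π.full.le 0) le_rfl⟩
  exact measurable_uncurry_of_continuous_of_measurable
    (u := fun r ω => (π.X r ω, clock π.J r ω)) hcont
    (fun r => (hm r).mono (π.full.le r) le_rfl)

theorem bgen_meas {N : ℕ} {μ : ℝ} {Ω : Type u} [mΩ : MeasurableSpace Ω]
    {P : Measure Ω} (π : BPolicy N μ Ω P)
    {f : (Fin N → ℝ) × (Fin N → ℝ) → ℝ} (hf : ContDiff ℝ 2 f) :
    Measurable (Function.uncurry fun (r : ℝ≥0) ω => gen μ f (π.X r ω) (clock π.J r ω) (π.J r ω)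
      (π.J r ω = π.jstar ω)) := by
  obtain ⟨-, -, hYu, hJm, hjs⟩ := bpol_facts π
  have h1 : ∀ j : Fin N, Measurable (fun z : ((Fin N → ℝ) × (Fin N → ℝ)) × Fin N =>
      gen μ f z.1.1 z.1.2 j (j = z.2)) := by
    intro j
    exact measurable_from_prod_countable_left (fun i => (gen_cont hf μ j (j = i)).measurable)
  exact meas_pair (fun (z : ((Fin N → ℝ) × (Fin N → ℝ)) × Fin N) j =>
      gen μ f z.1.1 z.1.2 j (j = z.2)) h1 (hYu.prodMk (hjs.comp measurable_snd)) hJm

section abs

variable {Ω : Type u} {mΩ : MeasurableSpace Ω} {P : Measure Ω} [IsProbabilityMeasure P]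

/-- localisation along partitions -/
theorem localise (F : Filtration ℝ≥0 mΩ) (z : ℝ≥0 → Ω → ℝ)
    (hzc : ∀ ω, Continuous (fun r => z r ω)) (hzm : ∀ r, Measurable[F r] (z r))
    (G : ℝ≥0 → ℝ≥0 → Ω → ℝ) (D : ℝ) (s t : ℝ≥0) (hst : s ≤ t)
    (hGi : ∀ a b, a ≤ b → Integrable (G a b) P)
    (hGb : ∀ a b, s ≤ a → a ≤ b → b ≤ t → ∀ ω, |G a b ω| ≤ D)
    (hadd : ∀ a b c ω, G a b ω + G b c ω = G a c ω)
    (hstep : ∀ R ε : ℝ, 0 < ε → ∃ δ : ℝ, 0 < δ ∧ ∀ a b : ℝ≥0, a ≤ b → (b : ℝ) ≤ a + δ →
      ∀ A, MeasurableSet[F a] A → (∀ ω ∈ A, z a ω ≤ R) →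
      |∫ ω in A, G a b ω ∂P| ≤ ε * ((b : ℝ) - a))
    (A : Set Ω) (hA : MeasurableSet[F s] A) : ∫ ω in A, G s t ω ∂P = 0 := by
  classical
  have hG0 : ∀ a ω, G a a ω = 0 := fun a ω => by
    have := hadd a a a ω
    linarith
  -- the approximations
  have key : ∀ m : ℕ, ∃ S : Ω → ℝ, Integrable S P ∧ (∀ ω, |S ω| ≤ D) ∧
      |∫ ω, S ω ∂P| ≤ (1 / ((m : ℝ) + 1)) * ((t : ℝ) - s) ∧
      ∀ ω, (∀ r, s ≤ r → r ≤ t → z r ω ≤ m) → S ω = A.indicator (G s t) ω := by
    intro m
    obtain ⟨δ, hδ, hst1⟩ := hstep m (1 / ((m : ℝ) + 1)) (by positivity)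
    obtain ⟨n, hn⟩ := exists_nat_gt (((t : ℝ) - s) / δ)
    have hts : (0 : ℝ) ≤ (t : ℝ) - s := by
      have : (s : ℝ) ≤ t := by exact_mod_cast hst
      linarith
    have hn0 : (0 : ℝ) < n := lt_of_le_of_lt (div_nonneg hts hδ.le) hn
    have hmesh : ((t : ℝ) - s) / n ≤ δ := by
      rw [div_le_iff₀ hn0]
      rw [div_lt_iff₀ hδ] at hn
      linarith
    -- the partition
    set h : ℝ≥0 := (t - s) / n with hh
    have hhr : (h : ℝ) = ((t : ℝ) - s) / n := by
      rw [hh, NNReal.coe_div, NNReal.coe_sub hst]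
      simp
    let p : ℕ → ℝ≥0 := fun k => s + k * h
    have hpr : ∀ k, (p k : ℝ) = s + k * (((t : ℝ) - s) / n) := by
      intro k
      simp only [p, NNReal.coe_add, NNReal.coe_mul, NNReal.coe_natCast, hhr]
    have hp0 : p 0 = s := by simp [p]
    have hpn : p n = t := by
      rw [← NNReal.coe_inj, hpr]
      field_simp
      ring
    have hpm : Monotone p := by
      refine monotone_nat_of_le_succ (fun k => ?_)
      simp only [p]
      push_cast
      gcongr
      simp
    have hps : ∀ k, s ≤ p k := fun k => by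
      rw [← hp0]
      exact hpm (Nat.zero_le k)
    have hpt : ∀ k, k ≤ n → p k ≤ t := fun k hk => by
      rw [← hpn]
      exact hpm hk
    have hstep' : ∀ k, (p (k + 1) : ℝ) - p k = ((t : ℝ) - s) / n := by
      intro k
      rw [hpr, hpr]
      push_cast
      ring
    -- the events
    let B : ℕ → Set Ω := fun k => A ∩ ⋂ i ∈ Finset.range (k + 1), {ω | z (p i) ω ≤ m}
    have hBmem : ∀ k ω, ω ∈ B k ↔ ω ∈ A ∧ ∀ i, i < k + 1 → z (p i) ω ≤ m := by
      intro k ω
      simp only [B, mem_inter_iff, mem_iInter, Finset.mem_range, mem_ofPred_eq]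
    have hBm : ∀ k, MeasurableSet[F (p k)] (B k) := by
      intro k
      refine MeasurableSet.inter (F.mono (hps k) A hA) ?_
      refine Finset.measurableSet_biInter _ (fun i hi => ?_)
      have hi' : i ≤ k := Nat.lt_succ_iff.mp (Finset.mem_range.mp hi)
      have h1 : Measurable[F (p k)] (z (p i)) := (hzm (p i)).mono (F.mono (hpm hi')) le_rfl
      exact measurableSet_le h1 measurable_const
    let S : ℕ → Ω → ℝ := fun l ω => ∑ k ∈ Finset.range l, (B k).indicator (G (p k) (p (k + 1))) ω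
    have hS : ∀ ω l, ((ω ∈ A ∧ ∀ i, i < l → z (p i) ω ≤ m) → S l ω = G s (p l) ω) ∧
        ∃ q, q ≤ l ∧ S l ω = G s (p q) ω := by
      intro ω l
      induction l with
      | zero => 
        refine ⟨fun _ => ?_, 0, le_rfl, ?_⟩ <;> simp [S, hp0, hG0]
      | succ l ih =>
        obtain ⟨ih1, q, hq, ih2⟩ := ih
        have hsum : S (l + 1) ω = S l ω + (B l).indicator (G (p l) (p (l + 1))) ω := by
          simp only [S, Finset.sum_range_succ]
        by_cases hω : ω ∈ B l
        · have h2 := (hBmem l ω).mp hω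
          have h3 : S (l + 1) ω = G s (p (l + 1)) ω := by
            rw [hsum, indicator_of_mem hω, ih1 ⟨h2.1, fun i hi => h2.2 i (by omega)⟩, hadd]
          exact ⟨fun _ => h3, l + 1, le_rfl, h3⟩
        · have h3 : S (l + 1) ω = S l ω := by
            rw [hsum, indicator_of_notMem hω, add_zero]
          refine ⟨fun h4 => absurd ((hBmem l ω).mpr h4) hω, q, by omega, ?_⟩
          rw [h3, ih2]
    have hint : ∀ k, Integrable ((B k).indicator (G (p k) (p (k + 1)))) P := fun k =>
      (hGi _ _ (hpm (Nat.le_succ k))).indicator (F.le _ _ (hBm k))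
    refine ⟨S n, ?_, ?_, ?_, ?_⟩
    · exact integrable_finsetSum _ (fun k _ => hint k)
    · intro ω
      obtain ⟨q, hq, h2⟩ := (hS ω n).2
      rw [h2]
      exact hGb s (p q) le_rfl (hps q) (hpt q hq) ω
    · have h1 : ∫ ω, S n ω ∂P = ∑ k ∈ Finset.range n, ∫ ω in B k, G (p k) (p (k + 1)) ω ∂P := by
        simp only [S]
        rw [integral_finsetSum _ (fun k _ => hint k)]
        refine Finset.sum_congr rfl (fun k _ => ?_)
        exact integral_indicator (F.le _ _ (hBm k))
      rw [h1]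
      refine (Finset.abs_sum_le_sum_abs _ _).trans ?_
      have h2 : ∀ k ∈ Finset.range n, |∫ ω in B k, G (p k) (p (k + 1)) ω ∂P| ≤
          (1 / ((m : ℝ) + 1)) * (((t : ℝ) - s) / n) := by
        intro k _
        rw [← hstep' k]
        refine hst1 (p k) (p (k + 1)) (hpm (Nat.le_succ k)) ?_ (B k) (hBm k) ?_
        · have := hstep' k
          linarith
        · intro ω hω
          exact ((hBmem k ω).mp hω).2 k (Nat.lt_succ_self k)
      refine (Finset.sum_le_sum h2).trans (le_of_eq ?_)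
      rw [Finset.sum_const, Finset.card_range, nsmul_eq_mul]
      field_simp
    · intro ω hω
      by_cases hωA : ω ∈ A
      · rw [indicator_of_mem hωA, (hS ω n).1 ⟨hωA, fun i hi => hω _ (hps i) (hpt i hi.le)⟩, hpn]
      · rw [indicator_of_notMem hωA]
        simp only [S]
        refine Finset.sum_eq_zero (fun k _ => ?_)
        exact indicator_of_notMem (fun h4 => hωA ((hBmem k ω).mp h4).1) _
  choose S hSi hSb hSe hSl using key
  have hAm : MeasurableSet A := F.le s A hA
  have hlim : Tendsto (fun m => ∫ ω, S m ω ∂P) atTop (𝓝 (∫ ω, A.indicator (G s t) ω ∂P)) := by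
    refine tendsto_integral_of_dominated_convergence (fun _ => D) ?_ (integrable_const D) ?_ ?_
    · exact fun m => (hSi m).aestronglyMeasurable
    · exact fun m => Eventually.of_forall (fun ω => by rw [Real.norm_eq_abs]; exact hSb m ω)
    · refine Eventually.of_forall (fun ω => ?_)
      obtain ⟨R, hR⟩ := (isCompact_Icc (a := s) (b := t)).exists_bound_of_continuousOn
        (hzc ω).continuousOn
      obtain ⟨m0, hm0⟩ := exists_nat_ge R
      refine tendsto_const_nhds.congr' ?_
      filter_upwards [eventually_ge_atTop m0] with m hm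
      symm
      refine hSl m ω (fun r hr1 hr2 => ?_)
      have h1 := hR r ⟨hr1, hr2⟩
      rw [Real.norm_eq_abs] at h1
      have h2 : (m0 : ℝ) ≤ m := by exact_mod_cast hm
      linarith [le_abs_self (z r ω)]
  have hlim0 : Tendsto (fun m => ∫ ω, S m ω ∂P) atTop (𝓝 0) := by
    rw [tendsto_zero_iff_abs_tendsto_zero]
    have h1 : Tendsto (fun m : ℕ => (1 / ((m : ℝ) + 1)) * ((t : ℝ) - s)) atTop (𝓝 0) := by
      have := (tendsto_one_div_add_atTop_nhds_zero_nat (𝕜 := ℝ)).mul_const ((t : ℝ) - s)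
      rwa [zero_mul] at this
    exact squeeze_zero (fun m => abs_nonneg _) hSe h1
  rw [← integral_indicator hAm]
  exact tendsto_nhds_unique hlim hlim0

end abs

theorem t_IFM (hIST : S_IST.{u}) : S_IFM.{u} := by
  intro N μ Ω mΩ P _ π f hf s t hst A hA
  obtain ⟨hZc, hZm, -, -, -⟩ := bpol_facts π
  have hgm := bgen_meas π hf.smooth
  obtain ⟨K, hK0, hK⟩ := gen_bound hf μ
  obtain ⟨C, hC⟩ := hf.bdd
  have hfC : ∀ y, |f y| ≤ C := fun y => (hC y.1 y.2).1
  have hfc : Continuous f := hf.smooth.continuous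
  set g : ℝ≥0 → Ω → ℝ := fun r ω => gen μ f (π.X r ω) (clock π.J r ω) (π.J r ω)
      (π.J r ω = π.jstar ω) with hg
  have hgK : ∀ r ω, |g r ω| ≤ K := fun r ω => hK _ _ _ _
  set G : ℝ≥0 → ℝ≥0 → Ω → ℝ := fun a b ω => f (π.X b ω, clock π.J b ω)
      - f (π.X a ω, clock π.J a ω) - ∫ r in (a : ℝ)..b, g r.toNNReal ω with hG
  have hfm : ∀ a, Integrable (fun ω => f (π.X a ω, clock π.J a ω)) P := by
    intro a
    refine Integrable.of_bound (C := C) ?_ (Eventually.of_forall fun ω => ?_)
    · exact (hfc.measurable.comp ((hZm a).mono (π.full.le a) le_rfl)).aestronglyMeasurable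
    · rw [Real.norm_eq_abs]
      exact hfC _
  refine localise (P := P) π.full (fun r ω => ‖(π.X r ω, clock π.J r ω)‖)
    (fun ω => (hZc ω).norm) (fun r => ?_) G (C + C + K * ((t : ℝ) - s)) s t hst ?_ ?_ ?_ ?_ A hA
  · exact measurable_norm.comp (hZm r)
  · intro a b hab
    have hab' : (a : ℝ) ≤ b := by exact_mod_cast hab
    have h1 := path_integrable (P := P) hgm hgK a b hab' univ
    rw [Measure.restrict_univ] at h1
    exact ((hfm b).sub (hfm a)).sub h1
  · intro a b hsa hab hbt ω
    have hab' : (a : ℝ) ≤ b := by exact_mod_cast hab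
    have hsa' : (s : ℝ) ≤ a := by exact_mod_cast hsa
    have hbt' : (b : ℝ) ≤ t := by exact_mod_cast hbt
    have h1 := intervalIntegral.norm_integral_le_of_norm_le_const (a := (a : ℝ)) (b := b) (C := K)
      (f := fun r : ℝ => g r.toNNReal ω)
      (fun r _ => by rw [Real.norm_eq_abs]; exact hgK _ ω)
    rw [Real.norm_eq_abs, abs_of_nonneg (sub_nonneg.mpr hab')] at h1
    have h2 : K * ((b : ℝ) - a) ≤ K * ((t : ℝ) - s) := by
      apply mul_le_mul_of_nonneg_left _ hK0
      linarith
    have h3 := abs_le.mp (hfC (π.X b ω, clock π.J b ω))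
    have h4 := abs_le.mp (hfC (π.X a ω, clock π.J a ω))
    have h5 := abs_le.mp h1
    simp only [hG]
    rw [abs_le]
    constructor <;> linarith
  · intro a b c ω
    have h1 := intervalIntegral.integral_add_adjacent_intervals
      (path_intervalIntegrable hgm hgK (a : ℝ) b ω) (path_intervalIntegrable hgm hgK (b : ℝ) c ω)
    simp only [hG]
    linarith
  · intro R ε hε
    obtain ⟨δ, hδ, h⟩ := hIST N μ Ω P π f hf R ε hε
    exact ⟨δ, hδ, fun a b hab hb A hA hR => h a b hab hb A hA hR⟩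

end H9.FL
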